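import Mathlib
import Pool.Agent.H.MP_dee721_co.A

namespace Pool.Agent.Results.MP_dee721_co.Full

open Pool.Agent.H.MP_dee721_co

/-- simplices of `VR(Q_n; r)`: non-empty sets of cube vertices with pairwise Hamming
distances at most `r` (the cube `{±1}^n` is written as `Fin n → Bool`). -/
def IsSimplex {n : ℕ} (r : ℕ) (σ : Finset (Fin n → Bool)) : Prop :=
  σ.Nonempty ∧ ∀ x ∈ σ, ∀ y ∈ σ, hammingDist x y ≤ r

/-- facets: simplices that are maximal under inclusion. -/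
def IsFacet {n : ℕ} (r : ℕ) (σ : Finset (Fin n → Bool)) : Prop :=
  IsSimplex r σ ∧ ∀ τ : Finset (Fin n → Bool), IsSimplex r τ → σ ⊆ τ → τ = σ

/-- rigid: for every `x ∈ σ` the maximum of `d(x, y)` over `y ∈ σ` equals `r`. -/
def IsRigid {n : ℕ} (r : ℕ) (σ : Finset (Fin n → Bool)) : Prop :=
  ∀ x ∈ σ, σ.sup (fun y => hammingDist x y) = r

/-- `f n r`: the number of distinct dimensions `|σ| - 1` of rigid facets of `VR(Q_n; r)`. -/
noncomputable def f (n r : ℕ) : ℕ :=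
  Set.ncard {d : ℕ | ∃ σ : Finset (Fin n → Bool), IsFacet r σ ∧ IsRigid r σ ∧ σ.card - 1 = d}

lemma sig_good {s u : ℕ} (T : Finset (Fin s → Bool)) :
    IsFacet (s + 5) (sig u T) ∧ IsRigid (s + 5) (sig u T) := by
  refine ⟨⟨⟨?_, sig_diam T⟩, ?_⟩, ?_⟩
  · obtain ⟨y, hy, -⟩ := sig_far (u := u) T (fun _ => true)
    exact ⟨y, hy⟩
  · intro τ hτ hsub
    refine Finset.Subset.antisymm (fun x hx => ?_) hsub
    obtain ⟨y, hy, -, h | h⟩ := sig_far T x
    · exact h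
    · have := hτ.2 x hx y (hsub hy)
      omega
  · intro x hx
    refine le_antisymm (Finset.sup_le fun y hy => sig_diam T x hx y hy) ?_
    obtain ⟨y, hy, h, -⟩ := sig_far T x
    exact h.trans (Finset.le_sup (f := fun y => hammingDist x y) hy)

lemma main (s u : ℕ) : 2 ^ s + 1 ≤ f (6 + (1 + (s + u))) (s + 5) := by
  unfold f
  have hfin : Set.Finite {d : ℕ | ∃ σ : Finset (Fin (6 + (1 + (s + u))) → Bool),
      IsFacet (s + 5) σ ∧ IsRigid (s + 5) σ ∧ σ.card - 1 = d} := by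
    refine (Set.finite_range fun σ : Finset (Fin (6 + (1 + (s + u))) → Bool) =>
      σ.card - 1).subset ?_
    rintro d ⟨σ, -, -, h⟩
    exact ⟨σ, h⟩
  have hinj : Function.Injective fun j : ℕ => 16 * 2 ^ s + 16 * j - 1 := by
    intro a b h
    have : 0 < 2 ^ s := by positivity
    dsimp only at h
    omega
  have hc : (((Finset.range (2 ^ s + 1)).image fun j : ℕ => 16 * 2 ^ s + 16 * j - 1 :
      Finset ℕ) : Set ℕ).ncard = 2 ^ s + 1 := by
    rw [Set.ncard_coe_finset, Finset.card_image_of_injective _ hinj, Finset.card_range]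
  rw [← hc]
  refine Set.ncard_le_ncard ?_ hfin
  intro d hd
  simp only [Finset.coe_image, Finset.coe_range, Set.mem_image, Set.mem_Iio] at hd
  obtain ⟨j, hj, rfl⟩ := hd
  obtain ⟨T, -, hT⟩ := Finset.exists_subset_card_eq
    (s := (Finset.univ : Finset (Fin s → Bool))) (n := j) (by simp; omega)
  exact ⟨sig u T, (sig_good T).1, (sig_good T).2, by rw [card_sig, hT]⟩

theorem result :
    (∀ r n : ℕ, 5 ≤ r → r + 2 ≤ n → 2 ^ (r - 5) + 1 ≤ f n r) ∧
    ∃ c : ℝ, 0 < c ∧ ∃ r₀ : ℕ, ∀ r : ℕ, r₀ ≤ r → ∃ n₀ : ℕ, ∀ n : ℕ, n₀ ≤ n →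
      Real.exp (c * r) ≤ f n r := by
  have h1 : ∀ r n : ℕ, 5 ≤ r → r + 2 ≤ n → 2 ^ (r - 5) + 1 ≤ f n r := by
    intro r n hr hn
    obtain ⟨s, rfl⟩ : ∃ s, r = s + 5 := ⟨r - 5, by omega⟩
    obtain ⟨u, rfl⟩ : ∃ u, n = 6 + (1 + (s + u)) := ⟨n - (s + 7), by omega⟩
    simpa using main s u
  refine ⟨h1, Real.log 2 / 2, by have := Real.log_pos (x := 2) (by norm_num); linarith, 10,
    fun r hr => ⟨r + 2, fun n hn => ?_⟩⟩
  have h2 : ((2 ^ (r - 5) + 1 : ℕ) : ℝ) ≤ f n r := by exact_mod_cast h1 r n (by omega) hn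
  have h3 : Real.exp (Real.log 2 / 2 * r) ≤ Real.exp (Real.log 2 * ((r - 5 : ℕ) : ℝ)) := by
    apply Real.exp_le_exp.2
    have hl := Real.log_pos (x := 2) (by norm_num)
    have : (r : ℝ) / 2 ≤ ((r - 5 : ℕ) : ℝ) := by
      rw [Nat.cast_sub (by omega)]
      have : (10 : ℝ) ≤ r := by exact_mod_cast hr
      push_cast; linarith
    nlinarith
  rw [mul_comm (Real.log 2) ((r - 5 : ℕ) : ℝ), Real.exp_nat_mul,
    Real.exp_log (by norm_num)] at h3
  push_cast at h2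
  linarith

end Pool.Agent.Results.MP_dee721_co.Full
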